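import Mathlib

set_option autoImplicit false

namespace Pool.Agent.MP_25e033_co

/-- A latin square of order `n`, as its set of triples (row, column, symbol): every cell holds
exactly one symbol, and every symbol occurs exactly once in each row and in each column. -/
def IsLatin {n : ℕ} (L : Finset (Fin n × Fin n × Fin n)) : Prop :=
  (∀ r c, ∃! s, (r, c, s) ∈ L) ∧ (∀ r s, ∃! c, (r, c, s) ∈ L) ∧ (∀ c s, ∃! r, (r, c, s) ∈ L)

/-- `P` is a uniquely completable set of `L`: `P ⊆ L` and `L` is the only latin square of the
same order containing `P`. -/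
def IsUC {n : ℕ} (L P : Finset (Fin n × Fin n × Fin n)) : Prop :=
  P ⊆ L ∧ ∀ L' : Finset (Fin n × Fin n × Fin n), IsLatin L' → P ⊆ L' → L' = L

end Pool.Agent.MP_25e033_co
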